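import Pool.Agent.H59.T6.RadF
import Pool.Agent.H16.T6.Loc

/-!
# T6: `Star` in the language of `H16.T6.Slc`
-/

set_option autoImplicit false

namespace Pool.Agent.H59.T6

open Finset H40.S36 Pool.Agent.H16.T6
open scoped Classical

variable {L X ι : Type*} [AddCommGroup L] {I : Finset ι} {S : ι → Finset X} {y : X → L →+ ZMod 3}
  {μ : L → L → L → L → ZMod 3}

/-- the slices indexed by the elements of `I` -/
def SS (I : Finset ι) (S : ι → Finset X) : I → Finset X := fun v => S v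

/-- evaluation -/
def evy (y : X → L →+ ZMod 3) : L → X → ZMod 3 := fun m p => y p m

theorem fib_eq (v : I) (l : L) (c : ZMod 3) : fib (SS I S) (evy y) v l c = N (S v) y l c := rfl

theorem evy_add (a b : L) (p : X) : evy y (a + b) p = evy y a p + evy y b p := by
  simp only [evy, map_add]

theorem fsS (slc : ∀ i ∈ I, Slc μ (S i) y) (v : I) (x : L) (c : ZMod 3) (m : L) :
    ∑ p ∈ (SS I S v).filter (fun p => evy y x p = c), evy y m p = 0 :=
  fib_one (slc v v.2) x m c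

theorem fqS (slc : ∀ i ∈ I, Slc μ (S i) y) (v : I) (x : L) (c : ZMod 3) (m m' : L) :
    ∑ p ∈ (SS I S v).filter (fun p => evy y x p = c), evy y m p * evy y m' p = - μ x x m m' :=
  fib_two (slc v v.2) x m m' c

theorem cell3S (slc : ∀ i ∈ I, Slc μ (S i) y) (v : I) (x m : L) (c d : ZMod 3)
    (h : μ x x m m = 0) : 3 ∣ H40.S36.cell (SS I S) (evy y) v x m c d :=
  cell_dvd (slc v v.2) h c d

theorem prsS (prs : ∀ k : L →+ ZMod 3,
      ∑ i ∈ I, ((S i ×ˢ S i).filter fun z => z.1 ≠ z.2 ∧ y z.1 - y z.2 = k).card ≤ 27)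
    (k : L → ZMod 3) : ∑ v : I, ((SS I S v ×ˢ SS I S v).filter fun z =>
      z.1 ≠ z.2 ∧ ∀ m, evy y m z.1 - evy y m z.2 = k m).card ≤ 27 := by
  by_cases hk : ∃ k' : L →+ ZMod 3, ∀ m, k' m = k m
  · obtain ⟨k', hk'⟩ := hk
    refine le_trans (le_of_eq ?_) (prs k')
    rw [← Finset.sum_coe_sort I]
    refine Finset.sum_congr rfl fun v _ => ?_
    congr 1
    ext z
    rw [Finset.mem_filter, Finset.mem_filter]
    constructor
    · rintro ⟨h1, h2, h3⟩
      refine ⟨h1, h2, ?_⟩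
      ext m
      rw [AddMonoidHom.sub_apply, hk' m]
      exact h3 m
    · rintro ⟨h1, h2, h3⟩
      refine ⟨h1, h2, fun m => ?_⟩
      rw [← hk' m, ← h3, AddMonoidHom.sub_apply]
      rfl
  · have h0 : ∀ v : I, ((SS I S v ×ˢ SS I S v).filter fun z =>
      z.1 ≠ z.2 ∧ ∀ m, evy y m z.1 - evy y m z.2 = k m).card = 0 := by
      intro v
      rw [Finset.card_eq_zero, Finset.filter_eq_empty_iff]
      rintro z _ ⟨_, h⟩
      exact hk ⟨y z.1 - y z.2, fun m => by rw [AddMonoidHom.sub_apply]; exact h m⟩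
    rw [Finset.sum_congr rfl fun v _ => h0 v]
    simp

theorem manyS {l : L} (many : 18 ≤ ∑ i ∈ I, six (S i) y l) :
    18 ≤ ((univ : Finset (I × ZMod 3)).filter
      (fun q => fib (SS I S) (evy y) q.1 l q.2 = 6)).card := by
  refine le_trans many (le_of_eq ?_)
  rw [← Finset.sum_coe_sort I,
    Finset.card_eq_sum_card_fiberwise (s := (univ : Finset (I × ZMod 3)).filter
      (fun q => fib (SS I S) (evy y) q.1 l q.2 = 6)) (f := fun q => q.1) (t := univ)
      (fun q _ => Finset.mem_univ _)]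
  refine Finset.sum_congr rfl fun v _ => ?_
  unfold six
  apply Finset.card_bij (fun c _ => (v, c))
  · intro c hc
    rw [Finset.mem_filter] at hc
    rw [Finset.mem_filter, Finset.mem_filter]
    exact ⟨⟨Finset.mem_univ _, hc.2⟩, rfl⟩
  · intro c _ c' _ h
    exact (Prod.mk.inj h).2
  · rintro ⟨v', c⟩ hq
    rw [Finset.mem_filter, Finset.mem_filter] at hq
    obtain ⟨⟨_, h1⟩, h2⟩ := hq
    change v' = v at h2
    subst h2
    exact ⟨c, Finset.mem_filter.mpr ⟨Finset.mem_univ _, h1⟩, rfl⟩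

theorem row_iff {l : L} : Row μ l ↔ NZ μ l := Iff.rfl

/-- `six` in the language of `Slc` -/
theorem six_slc (slc : ∀ i ∈ I, Slc μ (S i) y) (prs : ∀ k : L →+ ZMod 3,
      ∑ i ∈ I, ((S i ×ˢ S i).filter fun z => z.1 ≠ z.2 ∧ y z.1 - y z.2 = k).card ≤ 27)
    {l : L} (many : 18 ≤ ∑ i ∈ I, six (S i) y l) (hl : Row μ l) {i : ι} (hi : i ∈ I) {c : ZMod 3}
    (h6 : N (S i) y l c = 6) {m : L} :
    (∃ d, ∀ x ∈ S i, y x l = c → y x m = d) ↔ ∀ z, μ l l m z = 0 := by
  constructor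
  · rintro ⟨d, hd⟩
    exact star_conv (S := SS I S) (ev := evy y) (v := ⟨i, hi⟩) (x := l) (y := m) (c := c) (d := d)
      (fsS slc) (fqS slc) hd
  · intro hm
    exact star (S := SS I S) (ev := evy y) (Φ := μ) (v := ⟨i, hi⟩) (x := l) (c := c) (y := m)
      evy_add (fsS slc) (fqS slc) (cell3S slc) (prsS prs) (manyS many) hl h6 hm

/-- `rad` in the language of `Slc` -/
theorem rad_slc (slc : ∀ i ∈ I, Slc μ (S i) y) {D1 : AddSubgroup L}
    (hD1 : ∀ m ∈ D1, ∀ i ∈ I, ∃ d, ∀ x ∈ S i, y x m = d) (idx : 729 ≤ D1.index) {l : L} {i : ι}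
    (hi : i ∈ I) {c : ZMod 3} (h6 : N (S i) y l c = 6) :
    ∃ m, (∀ z, μ l l m z = 0) ∧ m ∉ D1 ∧ m + l ∉ D1 ∧ m - l ∉ D1 :=
  radF (S := SS I S) (ev := evy y) (Φ := μ) (v := ⟨i, hi⟩) (x := l) (c := c)
    evy_add (fsS slc) (fqS slc) (fun m hm v => hD1 m hm v v.2) idx h6

end Pool.Agent.H59.T6
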