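import Pool.Agent.H59.T6.Star

/-!
# T6: the field `rad` of `H40.S36.Hyp`: the functionals constant on one six-point fibre
-/

set_option autoImplicit false

namespace Pool.Agent.H59.T6

open Finset H40.S36

variable {V X D : Type*} [AddCommGroup D]

theorem radF [Fintype V] {S : V → Finset X} {ev : D → X → ZMod 3} {Φ : D → D → D → D → ZMod 3}
    {D1 : AddSubgroup D} (hadd : ∀ x y p, ev (x + y) p = ev x p + ev y p)
    (fs : ∀ v x c y, ∑ p ∈ (S v).filter (fun p => ev x p = c), ev y p = 0)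
    (fq : ∀ v x c y z, ∑ p ∈ (S v).filter (fun p => ev x p = c), ev y p * ev z p = - Φ x x y z)
    (hD1 : ∀ m ∈ D1, ∀ v, ∃ d, ∀ p ∈ S v, ev m p = d) (idx : 729 ≤ D1.index)
    {x : D} {v : V} {c : ZMod 3} (h6 : fib S ev v x c = 6) :
    ∃ m, Rad Φ x m ∧ m ∉ D1 ∧ m + x ∉ D1 ∧ m - x ∉ D1 := by
  classical
  set F : Finset X := (S v).filter (fun p => ev x p = c) with hF
  have hFc : F.card = 6 := h6
  let e : Fin 6 ≃ F := (Finset.equivFinOfCardEq hFc).symm
  have esum : ∀ g : X → ZMod 3, ∑ p ∈ F, g p = ∑ i : Fin 6, g (e i) := by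
    intro g
    rw [← Finset.sum_coe_sort F g]
    exact (Equiv.sum_comp e (fun p : F => g p)).symm
  have h0 : ∀ p, ev 0 p = 0 := by
    intro p
    have := hadd 0 0 p
    rw [add_zero] at this
    linear_combination (-1) * this
  let θ : D →+ (Fin 4 → ZMod 3) :=
    { toFun := fun m i => ev m (e (Fin.succ (Fin.castSucc i))) - ev m (e 0)
      map_zero' := by
        funext i
        simp only [h0, sub_self, Pi.zero_apply]
      map_add' := by
        intro m m'
        funext i
        simp only [hadd, Pi.add_apply]; ring }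
  have hker : ∀ m ∈ θ.ker, ∃ d, ∀ p ∈ S v, ev x p = c → ev m p = d := by
    intro m hm
    rw [AddMonoidHom.mem_ker] at hm
    have hi : ∀ i : Fin 4, ev m (e (Fin.succ (Fin.castSucc i))) = ev m (e 0) := by
      intro i
      have := congrFun hm i
      exact sub_eq_zero.mp this
    have h1 : ev m (e 1) = ev m (e 0) := hi 0
    have h2 : ev m (e 2) = ev m (e 0) := hi 1
    have h3 : ev m (e 3) = ev m (e 0) := hi 2
    have h4 : ev m (e 4) = ev m (e 0) := hi 3
    have hs := fs v x c m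
    rw [← hF, esum, Fin.sum_univ_six, h1, h2, h3, h4] at hs
    have h5 : ev m (e 5) = ev m (e 0) := by
      linear_combination hs - 2 * three0 (ev m (e 0))
    refine ⟨ev m (e 0), fun p hp hpc => ?_⟩
    have hpF : p ∈ F := Finset.mem_filter.mpr ⟨hp, hpc⟩
    have all : ∀ i : Fin 6, ev m (e i) = ev m (e 0) := by
      intro i
      fin_cases i
      · rfl
      · exact h1
      · exact h2
      · exact h3
      · exact h4
      · exact h5
    have := all (e.symm ⟨p, hpF⟩)
    rwa [Equiv.apply_symm_apply] at this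
  have hle : D1 ≤ θ.ker := by
    intro m hm
    rw [AddMonoidHom.mem_ker]
    funext i
    obtain ⟨d, hd⟩ := hD1 m hm v
    change ev m (e (Fin.succ (Fin.castSucc i))) - ev m (e 0) = 0
    rw [hd _ (Finset.mem_filter.mp (e _).2).1, hd _ (Finset.mem_filter.mp (e 0).2).1, sub_self]
  have hidx : θ.ker.index ≤ 81 := by
    rw [AddSubgroup.index_ker]
    have h1 : Nat.card θ.range ≤ Nat.card (Fin 4 → ZMod 3) :=
      Nat.card_le_card_of_injective (fun z : θ.range => (z : Fin 4 → ZMod 3))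
        Subtype.val_injective
    have h2 : Nat.card (Fin 4 → ZMod 3) = 81 := by
      rw [Nat.card_eq_fintype_card, Fintype.card_fun, ZMod.card, Fintype.card_fin]; norm_num
    rw [h2] at h1
    exact h1
  have hmul := AddSubgroup.relIndex_mul_index hle
  have hrel : 9 ≤ D1.relIndex θ.ker := by
    by_contra hc
    push Not at hc
    have : D1.relIndex θ.ker * θ.ker.index ≤ 8 * 81 := Nat.mul_le_mul (by omega) hidx
    omega
  have hx : x ∈ θ.ker := by
    rw [AddMonoidHom.mem_ker]
    funext i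
    change ev x (e (Fin.succ (Fin.castSucc i))) - ev x (e 0) = 0
    rw [(Finset.mem_filter.mp (e _).2).2, (Finset.mem_filter.mp (e 0).2).2, sub_self]
  by_contra hno
  push Not at hno
  have hall : ∀ m ∈ θ.ker, m ∈ D1 ∨ m + x ∈ D1 ∨ m - x ∈ D1 := by
    intro m hm
    by_cases h1 : m ∈ D1
    · exact Or.inl h1
    · by_cases h2 : m + x ∈ D1
      · exact Or.inr (Or.inl h2)
      · obtain ⟨d, hd⟩ := hker m hm
        have hR : Rad Φ x m := star_conv fs fq hd
        exact Or.inr (Or.inr (hno m hR h1 h2))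
  let K := D1.addSubgroupOf θ.ker
  let X3 : Fin 3 → (θ.ker ⧸ K) := fun i =>
    match i with
    | 0 => 0
    | 1 => -(QuotientAddGroup.mk (⟨x, hx⟩ : θ.ker))
    | 2 => QuotientAddGroup.mk (⟨x, hx⟩ : θ.ker)
  have hsurj : Function.Surjective X3 := by
    intro z
    obtain ⟨m, rfl⟩ := QuotientAddGroup.mk_surjective z
    rcases hall m m.2 with h | h | h
    · refine ⟨0, ?_⟩
      symm
      change (QuotientAddGroup.mk m : θ.ker ⧸ K) = 0
      rw [QuotientAddGroup.eq_zero_iff]
      exact h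
    · refine ⟨1, ?_⟩
      symm
      change (QuotientAddGroup.mk m : θ.ker ⧸ K) = -(QuotientAddGroup.mk (⟨x, hx⟩ : θ.ker))
      rw [← sub_eq_zero, sub_neg_eq_add, ← QuotientAddGroup.mk_add, QuotientAddGroup.eq_zero_iff]
      exact h
    · refine ⟨2, ?_⟩
      symm
      change (QuotientAddGroup.mk m : θ.ker ⧸ K) = QuotientAddGroup.mk (⟨x, hx⟩ : θ.ker)
      rw [← sub_eq_zero, ← QuotientAddGroup.mk_sub, QuotientAddGroup.eq_zero_iff]
      exact h
  have hcard : Nat.card (θ.ker ⧸ K) ≤ 3 := by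
    have := Nat.card_le_card_of_surjective X3 hsurj
    simpa using this
  have : D1.relIndex θ.ker = Nat.card (θ.ker ⧸ K) := rfl
  omega

/-- the field `rad` of `H40.S36.Hyp` -/
theorem rad_field [Fintype V] {S : V → Finset X} {ev : D → X → ZMod 3}
    {Φ : D → D → D → D → ZMod 3} {D1 : AddSubgroup D}
    (hadd : ∀ x y p, ev (x + y) p = ev x p + ev y p)
    (fs : ∀ v x c y, ∑ p ∈ (S v).filter (fun p => ev x p = c), ev y p = 0)
    (fq : ∀ v x c y z, ∑ p ∈ (S v).filter (fun p => ev x p = c), ev y p * ev z p = - Φ x x y z)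
    (many : ∀ x, NZ Φ x → 18 ≤ ((univ : Finset (V × ZMod 3)).filter
      (fun q => fib S ev q.1 x q.2 = 6)).card)
    (hD1 : ∀ m ∈ D1, ∀ v, ∃ d, ∀ p ∈ S v, ev m p = d) (idx : 729 ≤ D1.index) :
    ∀ x, NZ Φ x → ∃ m, Rad Φ x m ∧ m ∉ D1 ∧ m + x ∉ D1 ∧ m - x ∉ D1 := by
  intro x nz
  have h := many x nz
  obtain ⟨q, hq⟩ : ((univ : Finset (V × ZMod 3)).filter
      (fun q => fib S ev q.1 x q.2 = 6)).Nonempty := by
    rw [← Finset.card_pos]; omega
  exact radF (v := q.1) (c := q.2) hadd fs fq hD1 idx (Finset.mem_filter.mp hq).2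

/-- the field `empt` of `H40.S36.Hyp` -/
theorem empt_field {S : V → Finset X} {ev : D → X → ZMod 3} {Φ : D → D → D → D → ZMod 3}
    (fq : ∀ v x c y z, ∑ p ∈ (S v).filter (fun p => ev x p = c), ev y p * ev z p = - Φ x x y z) :
    ∀ v x c, NZ Φ x → fib S ev v x c ≠ 0 := by
  rintro v x c ⟨y, z, h⟩ h0
  apply h
  have h1 := fq v x c y z
  have h2 : (S v).filter (fun p => ev x p = c) = ∅ := Finset.card_eq_zero.mp h0
  rw [h2, Finset.sum_empty] at h1
  linear_combination h1

end Pool.Agent.H59.T6
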