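import Pool.Agent.H40.S36.Def

/-!
# T6: (*) of note 5535: the radical of a nonzero row is constant on every six-point fibre
-/

set_option autoImplicit false

namespace Pool.Agent.H59.T6

open Finset H40.S36

theorem sq2 : ∀ a b : ZMod 3, a * a + b * b = 0 → a = 0 ∧ b = 0 := by decide

theorem sq1 : ∀ a b : ZMod 3, a * a + b * b = 1 →
    (a = 1 ∧ b = 0) ∨ (a = -1 ∧ b = 0) ∨ (a = 0 ∧ b = 1) ∨ (a = 0 ∧ b = -1) := by decide

theorem sq4 (a1 b1 a2 b2 : ZMod 3) (h1 : a1 * a1 + a2 * a2 = 1) (h2 : b1 * b1 + b2 * b2 = 1)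
    (h3 : a1 * b1 + a2 * b2 = 0) :
    ((a1 = 1 ∧ b1 = 0) ∨ (a1 = -1 ∧ b1 = 0) ∨ (a1 = 0 ∧ b1 = 1) ∨ (a1 = 0 ∧ b1 = -1)) ∧
    ((a2 = 1 ∧ b2 = 0) ∨ (a2 = -1 ∧ b2 = 0) ∨ (a2 = 0 ∧ b2 = 1) ∨ (a2 = 0 ∧ b2 = -1)) := by
  rcases sq1 _ _ h1 with ⟨rfl, rfl⟩ | ⟨rfl, rfl⟩ | ⟨rfl, rfl⟩ | ⟨rfl, rfl⟩ <;>
  rcases sq1 _ _ h2 with ⟨rfl, rfl⟩ | ⟨rfl, rfl⟩ | ⟨rfl, rfl⟩ | ⟨rfl, rfl⟩ <;>
  revert h3 <;> decide

open scoped Classical

variable {V X D : Type*} [AddCommGroup D]

section tri

variable (ev : D → X → ZMod 3)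

/-- the difference of two points as a function on the functionals -/
def dif (z : X × X) : D → ZMod 3 := fun y => ev y z.1 - ev y z.2

/-- a triple of points with sum zero -/
structure Tri (T : Finset X) (d : D → ZMod 3) : Prop where
  c : T.card = 3
  add : ∀ x y, d (x + y) = d x + d y
  df : ∀ z ∈ T.offDiag, dif ev z = d ∨ dif ev z = -d
  m : ∀ y z, ∑ p ∈ T, ev y p * ev z p = - (d y * d z)

theorem three0 (x : ZMod 3) : x + x + x = 0 := by revert x; decide

theorem tri (hadd : ∀ x y p, ev (x + y) p = ev x p + ev y p) {T : Finset X} (hT : T.card = 3)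
    (hs : ∀ y, ∑ p ∈ T, ev y p = 0) : ∃ d, Tri ev T d := by
  obtain ⟨p, q, r, hpq, hpr, hqr, rfl⟩ := Finset.card_eq_three.mp hT
  have hs' : ∀ y, ev y p + ev y q + ev y r = 0 := by
    intro y
    have := hs y
    rw [Finset.sum_insert (by simp [hpq, hpr]), Finset.sum_insert (by simp [hqr]),
      Finset.sum_singleton] at this
    linear_combination this
  refine ⟨fun y => ev y q - ev y p, hT, ?_, ?_, ?_⟩
  · intro x y
    rw [hadd, hadd]; ring
  · rintro ⟨a, b⟩ hz
    rw [Finset.mem_offDiag] at hz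
    obtain ⟨h1, h2, h3⟩ := hz
    simp only [Finset.mem_insert, Finset.mem_singleton] at h1 h2
    have key : ∀ (f g : D → ZMod 3), (∀ y, f y = g y) → f = g := fun f g h => funext h
    rcases h1 with rfl | rfl | rfl <;> rcases h2 with rfl | rfl | rfl
    · exact absurd rfl h3
    · right; funext y; simp only [dif, Pi.neg_apply]; ring
    · left; funext y; simp only [dif]
      have := hs' y; have := three0 (ev y a)
      linear_combination (-1) * hs' y + three0 (ev y a)
    · left; funext y; simp only [dif]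
    · exact absurd rfl h3
    · right; funext y; simp only [dif, Pi.neg_apply]
      linear_combination (-1) * hs' y + three0 (ev y a)
    · right; funext y; simp only [dif, Pi.neg_apply]
      linear_combination hs' y - three0 (ev y b)
    · left; funext y; simp only [dif]
      linear_combination hs' y - three0 (ev y b)
    · exact absurd rfl h3
  · intro y z
    rw [Finset.sum_insert (by simp [hpq, hpr]), Finset.sum_insert (by simp [hqr]),
      Finset.sum_singleton]
    have h1 : ev y r = - ev y p - ev y q := by linear_combination hs' y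
    have h2 : ev z r = - ev z p - ev z q := by linear_combination hs' z
    rw [h1, h2]
    linear_combination three0 (ev y p * ev z p) + three0 (ev y q * ev z q)

theorem Tri.neg_mem {T : Finset X} {d : D → ZMod 3} (h : Tri ev T d) {W : Finset (D → ZMod 3)}
    (h1 : d ∈ W) (h2 : -d ∈ W) : 6 ≤ (T.offDiag.filter fun z => dif ev z ∈ W).card := by
  have : T.offDiag.filter (fun z => dif ev z ∈ W) = T.offDiag := by
    apply Finset.filter_true_of_mem
    intro z hz
    rcases h.df z hz with h3 | h3 <;> rw [h3] <;> assumption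
  rw [this, Finset.offDiag_card, h.c]

end tri

section split

variable {ev : D → X → ZMod 3}

/-- sizes: six points, classes of sizes divisible by three, not all in one class -/
theorem two_classes {F : Finset X} (g : X → ZMod 3) (hF : F.card = 6)
    (h3 : ∀ a, 3 ∣ (F.filter fun p => g p = a).card) (hn : ¬ ∃ d, ∀ p ∈ F, g p = d) :
    ∃ a b, a ≠ b ∧ (F.filter fun p => g p = a).card = 3 ∧ (F.filter fun p => g p = b).card = 3 ∧
      F = (F.filter fun p => g p = a) ∪ (F.filter fun p => g p = b) := by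
  have hsum : ∑ a : ZMod 3, (F.filter fun p => g p = a).card = 6 := by
    rw [← hF]
    exact (Finset.card_eq_sum_card_fiberwise (f := g) (t := univ)
      (fun p _ => Finset.mem_univ _)).symm
  have e3 : ∑ a : ZMod 3, (F.filter fun p => g p = a).card =
      (F.filter fun p => g p = 0).card + (F.filter fun p => g p = 1).card
        + (F.filter fun p => g p = 2).card := by
    exact Fin.sum_univ_three (fun a : Fin 3 => (F.filter fun p => g p = (a : ZMod 3)).card)
  rw [e3] at hsum
  have hne : ∀ a, (F.filter fun p => g p = a).card ≠ 6 := by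
    intro a h
    apply hn
    refine ⟨a, fun p hp => ?_⟩
    have h1 : F.filter (fun p => g p = a) = F :=
      Finset.eq_of_subset_of_card_le (Finset.filter_subset _ _) (by rw [h, hF])
    rw [← h1] at hp
    exact (Finset.mem_filter.mp hp).2
  have un : ∀ a b : ZMod 3, a ≠ b → (F.filter fun p => g p = a).card = 3 →
      (F.filter fun p => g p = b).card = 3 →
      F = (F.filter fun p => g p = a) ∪ (F.filter fun p => g p = b) := by
    intro a b hab ha hb
    symm
    apply Finset.eq_of_subset_of_card_le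
    · exact Finset.union_subset (Finset.filter_subset _ _) (Finset.filter_subset _ _)
    · rw [Finset.card_union_of_disjoint, ha, hb, hF]
      rw [Finset.disjoint_left]
      intro p h1 h2
      exact hab ((Finset.mem_filter.mp h1).2.symm.trans (Finset.mem_filter.mp h2).2)
  have d0 := h3 0
  have d1 := h3 1
  have d2 := h3 2
  have n0 := hne 0
  have n1 := hne 1
  have n2 := hne 2
  have cases : ((F.filter fun p => g p = 0).card = 3 ∧ (F.filter fun p => g p = 1).card = 3) ∨
      ((F.filter fun p => g p = 0).card = 3 ∧ (F.filter fun p => g p = 2).card = 3) ∨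
      ((F.filter fun p => g p = 1).card = 3 ∧ (F.filter fun p => g p = 2).card = 3) := by
    omega
  rcases cases with ⟨h1, h2⟩ | ⟨h1, h2⟩ | ⟨h1, h2⟩
  · exact ⟨0, 1, by decide, h1, h2, un 0 1 (by decide) h1 h2⟩
  · exact ⟨0, 2, by decide, h1, h2, un 0 2 (by decide) h1 h2⟩
  · exact ⟨1, 2, by decide, h1, h2, un 1 2 (by decide) h1 h2⟩

/-- a bad six-fibre is the union of two triples -/
theorem bad_split (hadd : ∀ x y p, ev (x + y) p = ev x p + ev y p) {F : Finset X} {ψ : D → D → ZMod 3}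
    (hF : F.card = 6) (hs : ∀ y, ∑ p ∈ F, ev y p = 0)
    (hq : ∀ y z, ∑ p ∈ F, ev y p * ev z p = - ψ y z) {m : D} (hm : ∀ z, ψ m z = 0)
    (h3 : ∀ a, 3 ∣ (F.filter fun p => ev m p = a).card) (hn : ¬ ∃ d, ∀ p ∈ F, ev m p = d) :
    ∃ T1 T2 d1 d2, Tri ev T1 d1 ∧ Tri ev T2 d2 ∧ Disjoint T1 T2 ∧ T1 ⊆ F ∧ T2 ⊆ F ∧
      ∀ y z, ψ y z = d1 y * d1 z + d2 y * d2 z := by
  obtain ⟨a, b, hab, ha, hb, hu⟩ := two_classes (ev m) hF h3 hn
  set T1 := F.filter fun p => ev m p = a with hT1
  set T2 := F.filter fun p => ev m p = b with hT2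
  have hdis : Disjoint T1 T2 := by
    rw [Finset.disjoint_left]
    intro p h1 h2
    exact hab ((Finset.mem_filter.mp h1).2.symm.trans (Finset.mem_filter.mp h2).2)
  have s12 : ∀ y, ∑ p ∈ T1, ev y p + ∑ p ∈ T2, ev y p = 0 := by
    intro y
    rw [← Finset.sum_union hdis, ← hu]; exact hs y
  have q12 : ∀ y, a * ∑ p ∈ T1, ev y p + b * ∑ p ∈ T2, ev y p = 0 := by
    intro y
    have h1 : ∑ p ∈ T1, ev m p * ev y p = a * ∑ p ∈ T1, ev y p := by
      rw [Finset.mul_sum]
      exact Finset.sum_congr rfl fun p hp => by rw [(Finset.mem_filter.mp hp).2]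
    have h2 : ∑ p ∈ T2, ev m p * ev y p = b * ∑ p ∈ T2, ev y p := by
      rw [Finset.mul_sum]
      exact Finset.sum_congr rfl fun p hp => by rw [(Finset.mem_filter.mp hp).2]
    rw [← h1, ← h2, ← Finset.sum_union hdis, ← hu, hq, hm, neg_zero]
  have hab' : a - b ≠ 0 := sub_ne_zero.mpr hab
  have s1 : ∀ y, ∑ p ∈ T1, ev y p = 0 := by
    intro y
    have : (a - b) * ∑ p ∈ T1, ev y p = 0 := by linear_combination q12 y - b * s12 y
    rcases mul_eq_zero.mp this with h | h
    · exact absurd h hab'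
    · exact h
  have s2 : ∀ y, ∑ p ∈ T2, ev y p = 0 := by
    intro y
    linear_combination s12 y - s1 y
  obtain ⟨d1, hd1⟩ := tri ev hadd ha s1
  obtain ⟨d2, hd2⟩ := tri ev hadd hb s2
  refine ⟨T1, T2, d1, d2, hd1, hd2, hdis, Finset.filter_subset _ _, Finset.filter_subset _ _, ?_⟩
  intro y z
  have h1 := hq y z
  rw [hu, Finset.sum_union hdis, hd1.m, hd2.m] at h1
  linear_combination h1

/-- a bad six-fibre has at least twelve ordered pairs with difference `± d1`, `± d2` -/
theorem bad_pairs {F T1 T2 : Finset X} {d1 d2 : D → ZMod 3} (h1 : Tri ev T1 d1) (h2 : Tri ev T2 d2)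
    (hd : Disjoint T1 T2) (s1 : T1 ⊆ F) (s2 : T2 ⊆ F) {W : Finset (D → ZMod 3)} (w1 : d1 ∈ W)
    (w1' : -d1 ∈ W) (w2 : d2 ∈ W) (w2' : -d2 ∈ W) :
    12 ≤ (F.offDiag.filter fun z => dif ev z ∈ W).card := by
  have a1 := h1.neg_mem ev w1 w1'
  have a2 := h2.neg_mem ev w2 w2'
  have hdis : Disjoint (T1.offDiag.filter fun z => dif ev z ∈ W)
      (T2.offDiag.filter fun z => dif ev z ∈ W) := by
    rw [Finset.disjoint_left]
    intro z z1 z2
    have e1 := (Finset.mem_offDiag.mp (Finset.mem_filter.mp z1).1).1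
    have e2 := (Finset.mem_offDiag.mp (Finset.mem_filter.mp z2).1).1
    exact (Finset.disjoint_left.mp hd) e1 e2
  have hsub : (T1.offDiag.filter fun z => dif ev z ∈ W) ∪ (T2.offDiag.filter fun z => dif ev z ∈ W)
      ⊆ F.offDiag.filter fun z => dif ev z ∈ W := by
    apply Finset.union_subset
    · intro z hz
      rw [Finset.mem_filter, Finset.mem_offDiag] at hz ⊢
      exact ⟨⟨s1 hz.1.1, s1 hz.1.2.1, hz.1.2.2⟩, hz.2⟩
    · intro z hz
      rw [Finset.mem_filter, Finset.mem_offDiag] at hz ⊢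
      exact ⟨⟨s2 hz.1.1, s2 hz.1.2.1, hz.1.2.2⟩, hz.2⟩
  have := Finset.card_le_card hsub
  rw [Finset.card_union_of_disjoint hdis] at this
  omega

/-- a good six-fibre: all thirty ordered pairs have difference in `W` -/
theorem good_pairs {F : Finset X} (hF : F.card = 6) {W : Finset (D → ZMod 3)}
    (h : ∀ z ∈ F.offDiag, dif ev z ∈ W) :
    30 ≤ (F.offDiag.filter fun z => dif ev z ∈ W).card := by
  rw [Finset.filter_true_of_mem h, Finset.offDiag_card, hF]

end split

section lin

/-- additive functions vanishing where `d` vanishes -/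
theorem span1 {d f : D → ZMod 3} (hd : ∀ x y, d (x + y) = d x + d y)
    (hf : ∀ x y, f (x + y) = f x + f y) (h : ∀ x, d x = 0 → f x = 0) {v : D} (hv : d v = 1) :
    f = fun x => f v * d x := by
  funext x
  have key : ∀ c : ZMod 3, d x = c → f x = f v * c := by
    intro c hc
    fin_cases c
    · change d x = 0 at hc
      change f x = f v * 0
      rw [h x hc, mul_zero]
    · change d x = 1 at hc
      have : d (x + (v + v)) = 0 := by rw [hd, hd, hc, hv]; decide
      have h1 := h _ this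
      rw [hf, hf] at h1
      change f x = f v * 1
      linear_combination h1 - three0 (f v)
    · change d x = 2 at hc
      have : d (x + v) = 0 := by rw [hd, hc, hv]; decide
      have h1 := h _ this
      rw [hf] at h1
      change f x = f v * 2
      linear_combination h1 - three0 (f v)
  exact key _ rfl

/-- additive functions vanishing where `d1` and `d2` vanish -/
theorem span2 {d1 d2 f : D → ZMod 3} (hd1 : ∀ x y, d1 (x + y) = d1 x + d1 y)
    (hd2 : ∀ x y, d2 (x + y) = d2 x + d2 y)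
    (hf : ∀ x y, f (x + y) = f x + f y) (h : ∀ x, d1 x = 0 → d2 x = 0 → f x = 0) {u v : D}
    (hu1 : d1 u = 1) (hu2 : d2 u = 0) (hv1 : d1 v = 0) (hv2 : d2 v = 1) :
    f = fun x => f u * d1 x + f v * d2 x := by
  -- `g = f - f u d1` vanishes where `d2` does
  have hg : ∀ x y, (f (x + y) - f u * d1 (x + y)) = (f x - f u * d1 x) + (f y - f u * d1 y) := by
    intro x y
    rw [hf, hd1]; ring
  have h2 : ∀ x, d2 x = 0 → f x - f u * d1 x = 0 := by
    intro x hx
    have key : ∀ c : ZMod 3, d1 x = c → f x - f u * c = 0 := by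
      intro c hc
      fin_cases c
      · change d1 x = 0 at hc
        change f x - f u * 0 = 0
        rw [h x hc hx, mul_zero, sub_zero]
      · change d1 x = 1 at hc
        have e1 : d1 (x + (u + u)) = 0 := by rw [hd1, hd1, hc, hu1]; decide
        have e2 : d2 (x + (u + u)) = 0 := by rw [hd2, hd2, hx, hu2]; decide
        have h1 := h _ e1 e2
        rw [hf, hf] at h1
        change f x - f u * 1 = 0
        linear_combination h1 - three0 (f u)
      · change d1 x = 2 at hc
        have e1 : d1 (x + u) = 0 := by rw [hd1, hc, hu1]; decide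
        have e2 : d2 (x + u) = 0 := by rw [hd2, hx, hu2]; decide
        have h1 := h _ e1 e2
        rw [hf] at h1
        change f x - f u * 2 = 0
        linear_combination h1 - three0 (f u)
    exact key _ rfl
  have h3 := span1 (d := d2) (f := fun x => f x - f u * d1 x) hd2 hg h2 hv2
  funext x
  have h4 := congrFun h3 x
  simp only [hv1, mul_zero, sub_zero] at h4
  linear_combination h4

end lin

section count

variable [Fintype V] {S : V → Finset X} {ev : D → X → ZMod 3}

/-- the fibre -/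
noncomputable def fb (S : V → Finset X) (ev : D → X → ZMod 3) (x : D) (q : V × ZMod 3) : Finset X :=
  (S q.1).filter fun p => ev x p = q.2

/-- each class has at most `27` ordered pairs, also when counted over the fibres -/
theorem cls27 (prs : ∀ k : D → ZMod 3,
      ∑ v, ((S v).offDiag.filter fun z => dif ev z = k).card ≤ 27) (x : D)
    (Q : Finset (V × ZMod 3)) (k : D → ZMod 3) :
    ∑ q ∈ Q, ((fb S ev x q).offDiag.filter fun z => dif ev z = k).card ≤ 27 := by
  calc ∑ q ∈ Q, ((fb S ev x q).offDiag.filter fun z => dif ev z = k).card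
      ≤ ∑ q : V × ZMod 3, ((fb S ev x q).offDiag.filter fun z => dif ev z = k).card :=
        Finset.sum_le_sum_of_subset (Finset.subset_univ _)
    _ = ∑ v, ∑ c, ((fb S ev x (v, c)).offDiag.filter fun z => dif ev z = k).card := by
        rw [← Finset.univ_product_univ, Finset.sum_product]
    _ ≤ ∑ v, ((S v).offDiag.filter fun z => dif ev z = k).card := by
        apply Finset.sum_le_sum
        intro v _
        rw [Finset.card_eq_sum_card_fiberwise (s := (S v).offDiag.filter fun z => dif ev z = k)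
          (f := fun z => ev x z.1) (t := univ) (fun p _ => Finset.mem_univ _)]
        apply Finset.sum_le_sum
        intro c _
        apply Finset.card_le_card
        intro z hz
        rw [Finset.mem_filter, Finset.mem_offDiag] at hz
        obtain ⟨⟨h1, h2, h3⟩, h4⟩ := hz
        rw [Finset.mem_filter, Finset.mem_filter, Finset.mem_offDiag]
        exact ⟨⟨⟨(Finset.mem_filter.mp h1).1, (Finset.mem_filter.mp h2).1, h3⟩, h4⟩,
          (Finset.mem_filter.mp h1).2⟩
    _ ≤ 27 := prs k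

/-- the same for a set of classes -/
theorem cls27W (prs : ∀ k : D → ZMod 3,
      ∑ v, ((S v).offDiag.filter fun z => dif ev z = k).card ≤ 27) (x : D)
    (Q : Finset (V × ZMod 3)) (W : Finset (D → ZMod 3)) :
    ∑ q ∈ Q, ((fb S ev x q).offDiag.filter fun z => dif ev z ∈ W).card ≤ 27 * W.card := by
  have e : ∀ q, ((fb S ev x q).offDiag.filter fun z => dif ev z ∈ W).card =
      ∑ k ∈ W, ((fb S ev x q).offDiag.filter fun z => dif ev z = k).card := by
    intro q
    rw [Finset.card_eq_sum_card_fiberwise (s := (fb S ev x q).offDiag.filter fun z => dif ev z ∈ W)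
      (f := fun z => dif ev z) (t := W) (fun z hz => (Finset.mem_filter.mp hz).2)]
    apply Finset.sum_congr rfl
    intro k hk
    congr 1
    ext z
    rw [Finset.mem_filter, Finset.mem_filter, Finset.mem_filter]
    constructor
    · rintro ⟨⟨h1, _⟩, h2⟩; exact ⟨h1, h2⟩
    · rintro ⟨h1, h2⟩; exact ⟨⟨h1, by rw [h2]; exact hk⟩, h2⟩
  calc ∑ q ∈ Q, ((fb S ev x q).offDiag.filter fun z => dif ev z ∈ W).card
      = ∑ q ∈ Q, ∑ k ∈ W, ((fb S ev x q).offDiag.filter fun z => dif ev z = k).card :=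
        Finset.sum_congr rfl fun q _ => e q
    _ = ∑ k ∈ W, ∑ q ∈ Q, ((fb S ev x q).offDiag.filter fun z => dif ev z = k).card :=
        Finset.sum_comm
    _ ≤ ∑ k ∈ W, 27 := Finset.sum_le_sum fun k _ => cls27 prs x Q k
    _ = 27 * W.card := by rw [Finset.sum_const, smul_eq_mul, mul_comm]

end count

section main

variable [Fintype V] {S : V → Finset X} {ev : D → X → ZMod 3} {Φ : D → D → D → D → ZMod 3}

/-- `d u = 1` for some `u` if `d` is additive and not zero at some point -/
theorem norm1 {d e : D → ZMod 3} (hd : ∀ x y, d (x + y) = d x + d y)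
    (he : ∀ x y, e (x + y) = e x + e y) {u : D} (h : d u ≠ 0) (h' : e u = 0) :
    ∃ v, d v = 1 ∧ e v = 0 := by
  have key : ∀ c : ZMod 3, c ≠ 0 → c = 1 ∨ c = 2 := by decide
  rcases key _ h with h1 | h1
  · exact ⟨u, h1, h'⟩
  · refine ⟨u + u, ?_, ?_⟩
    · rw [hd, h1]; decide
    · rw [he, h']; decide

/-- the data of a bad six-fibre of `x` -/
structure Bad (S : V → Finset X) (ev : D → X → ZMod 3) (Φ : D → D → D → D → ZMod 3) (x : D)
    (q : V × ZMod 3) (T1 T2 : Finset X) (d1 d2 : D → ZMod 3) : Prop where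
  t1 : Tri ev T1 d1
  t2 : Tri ev T2 d2
  dis : Disjoint T1 T2
  s1 : T1 ⊆ fb S ev x q
  s2 : T2 ⊆ fb S ev x q
  f : ∀ y z, Φ x x y z = d1 y * d1 z + d2 y * d2 z

theorem dichotomy (hadd : ∀ x y p, ev (x + y) p = ev x p + ev y p)
    (fs : ∀ v x c y, ∑ p ∈ (S v).filter (fun p => ev x p = c), ev y p = 0)
    (fq : ∀ v x c y z, ∑ p ∈ (S v).filter (fun p => ev x p = c), ev y p * ev z p = - Φ x x y z)
    (cell3 : ∀ v x y c d, Φ x x y y = 0 → 3 ∣ cell S ev v x y c d) {x : D} {q : V × ZMod 3}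
    (hq : fib S ev q.1 x q.2 = 6) :
    (∀ m, Rad Φ x m → ∃ d, ∀ p ∈ fb S ev x q, ev m p = d) ∨
      ∃ T1 T2 d1 d2, Bad S ev Φ x q T1 T2 d1 d2 := by
  by_cases h : ∀ m, Rad Φ x m → ∃ d, ∀ p ∈ fb S ev x q, ev m p = d
  · exact Or.inl h
  · right
    push Not at h
    obtain ⟨m, hm, hn⟩ := h
    have h3 : ∀ a, 3 ∣ ((fb S ev x q).filter fun p => ev m p = a).card := by
      intro a
      have := cell3 q.1 x m q.2 a (hm m)
      unfold cell at this
      unfold fb
      rwa [Finset.filter_filter]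
    obtain ⟨T1, T2, d1, d2, t1, t2, dis, s1, s2, f⟩ :=
      bad_split (ψ := Φ x x) hadd (F := fb S ev x q) hq (fun y => fs q.1 x q.2 y)
        (fun y z => fq q.1 x q.2 y z) hm h3 (by push Not; exact hn)
    exact ⟨T1, T2, d1, d2, t1, t2, dis, s1, s2, f⟩

theorem dif_add (hadd : ∀ x y p, ev (x + y) p = ev x p + ev y p) (z : X × X) (x y : D) :
    dif ev z (x + y) = dif ev z x + dif ev z y := by
  simp only [dif, hadd]; ring

/-- the case of a one-dimensional space of differences -/
theorem caseW3 (hadd : ∀ x y p, ev (x + y) p = ev x p + ev y p)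
    (fs : ∀ v x c y, ∑ p ∈ (S v).filter (fun p => ev x p = c), ev y p = 0)
    (fq : ∀ v x c y z, ∑ p ∈ (S v).filter (fun p => ev x p = c), ev y p * ev z p = - Φ x x y z)
    (cell3 : ∀ v x y c d, Φ x x y y = 0 → 3 ∣ cell S ev v x y c d)
    (prs : ∀ k : D → ZMod 3, ∑ v, ((S v).offDiag.filter fun z => dif ev z = k).card ≤ 27)
    {x : D} (many : 18 ≤ ((univ : Finset (V × ZMod 3)).filter
      (fun q => fib S ev q.1 x q.2 = 6)).card) {d : D → ZMod 3}
    (hd : ∀ x y, d (x + y) = d x + d y) {v : D} (hv : d v = 1)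
    (hr : ∀ r, d r = 0 → Rad Φ x r) : False := by
  set W : Finset (D → ZMod 3) := univ.image fun c : ZMod 3 => fun y => c * d y with hW
  have hWc : W.card ≤ 3 := by
    refine (Finset.card_image_le).trans ?_
    simp [ZMod.card]
  have mem : ∀ f : D → ZMod 3, (∀ x y, f (x + y) = f x + f y) → (∀ r, d r = 0 → f r = 0) →
      f ∈ W := by
    intro f hf h0
    rw [hW, Finset.mem_image]
    exact ⟨f v, Finset.mem_univ _, (span1 hd hf h0 hv).symm⟩
  have each : ∀ q ∈ (univ : Finset (V × ZMod 3)).filter (fun q => fib S ev q.1 x q.2 = 6),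
      12 ≤ ((fb S ev x q).offDiag.filter fun z => dif ev z ∈ W).card := by
    intro q hq
    have hq6 := (Finset.mem_filter.mp hq).2
    rcases dichotomy hadd fs fq cell3 hq6 with h | ⟨T1, T2, d1, d2, hb⟩
    · refine le_trans (by norm_num) (good_pairs (F := fb S ev x q) hq6 ?_)
      intro z hz
      rw [Finset.mem_offDiag] at hz
      apply mem _ (dif_add hadd z)
      intro r hr0
      obtain ⟨e, he⟩ := h r (hr r hr0)
      simp only [dif]
      rw [he _ hz.1, he _ hz.2.1, sub_self]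
    · have van : ∀ r, d r = 0 → d1 r = 0 ∧ d2 r = 0 := by
        intro r hr0
        have h1 := hb.f r r
        rw [hr r hr0 r] at h1
        exact sq2 _ _ h1.symm
      have neg : ∀ f : D → ZMod 3, (∀ x y, f (x + y) = f x + f y) →
          ∀ x y, (-f) (x + y) = (-f) x + (-f) y := by
        intro f hf x y
        simp only [Pi.neg_apply, hf]; ring
      exact bad_pairs hb.t1 hb.t2 hb.dis hb.s1 hb.s2
        (mem _ hb.t1.add fun r hr0 => (van r hr0).1)
        (mem _ (neg _ hb.t1.add) fun r hr0 => by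
          simp only [Pi.neg_apply, (van r hr0).1, neg_zero])
        (mem _ hb.t2.add fun r hr0 => (van r hr0).2)
        (mem _ (neg _ hb.t2.add) fun r hr0 => by
          simp only [Pi.neg_apply, (van r hr0).2, neg_zero])
  have h1 := cls27W prs x ((univ : Finset (V × ZMod 3)).filter (fun q => fib S ev q.1 x q.2 = 6)) W
  have h2 := Finset.card_nsmul_le_sum _ _ _ each
  rw [smul_eq_mul] at h2
  have h3 : 27 * W.card ≤ 27 * 3 := Nat.mul_le_mul_left _ hWc
  omega

/-- the case of a two-dimensional space of differences -/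
theorem caseW9 (hadd : ∀ x y p, ev (x + y) p = ev x p + ev y p)
    (fs : ∀ v x c y, ∑ p ∈ (S v).filter (fun p => ev x p = c), ev y p = 0)
    (fq : ∀ v x c y z, ∑ p ∈ (S v).filter (fun p => ev x p = c), ev y p * ev z p = - Φ x x y z)
    (cell3 : ∀ v x y c d, Φ x x y y = 0 → 3 ∣ cell S ev v x y c d)
    (prs : ∀ k : D → ZMod 3, ∑ v, ((S v).offDiag.filter fun z => dif ev z = k).card ≤ 27)
    {x : D} (many : 18 ≤ ((univ : Finset (V × ZMod 3)).filter
      (fun q => fib S ev q.1 x q.2 = 6)).card) {d1 d2 : D → ZMod 3}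
    (hd1 : ∀ x y, d1 (x + y) = d1 x + d1 y) (hd2 : ∀ x y, d2 (x + y) = d2 x + d2 y)
    (hf : ∀ y z, Φ x x y z = d1 y * d1 z + d2 y * d2 z) {u v : D}
    (hu1 : d1 u = 1) (hu2 : d2 u = 0) (hv1 : d1 v = 0) (hv2 : d2 v = 1) : False := by
  set W : Finset (D → ZMod 3) :=
    univ.image fun c : ZMod 3 × ZMod 3 => fun y => c.1 * d1 y + c.2 * d2 y with hW
  have hWc : W.card ≤ 9 := by
    refine (Finset.card_image_le).trans ?_
    simp [ZMod.card, Fintype.card_prod]
  set W4 : Finset (D → ZMod 3) := {d1, -d1, d2, -d2} with hW4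
  have hW4c : W4.card ≤ 4 := Finset.card_le_four
  have hr : ∀ r, d1 r = 0 → d2 r = 0 → Rad Φ x r := by
    intro r h1 h2 z
    rw [hf, h1, h2]; ring
  have mem : ∀ f : D → ZMod 3, (∀ x y, f (x + y) = f x + f y) →
      (∀ r, d1 r = 0 → d2 r = 0 → f r = 0) → f ∈ W := by
    intro f hf' h0
    rw [hW, Finset.mem_image]
    exact ⟨(f u, f v), Finset.mem_univ _, (span2 hd1 hd2 hf' h0 hu1 hu2 hv1 hv2).symm⟩
  set Q := (univ : Finset (V × ZMod 3)).filter (fun q => fib S ev q.1 x q.2 = 6) with hQ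
  set Qb := Q.filter fun q => ∃ T1 T2 e1 e2, Bad S ev Φ x q T1 T2 e1 e2 with hQb
  -- the functions of a bad fibre
  have bad4 : ∀ {q T1 T2 e1 e2}, Bad S ev Φ x q T1 T2 e1 e2 →
      (e1 = d1 ∨ e1 = -d1 ∨ e1 = d2 ∨ e1 = -d2) ∧ (e2 = d1 ∨ e2 = -d1 ∨ e2 = d2 ∨ e2 = -d2) := by
    intro q T1 T2 e1 e2 hb
    have van : ∀ r, d1 r = 0 → d2 r = 0 → e1 r = 0 ∧ e2 r = 0 := by
      intro r h1 h2
      have h3 := hb.f r r
      rw [hr r h1 h2 r] at h3
      exact sq2 _ _ h3.symm
    have x1 := span2 hd1 hd2 hb.t1.add (fun r h1 h2 => (van r h1 h2).1) hu1 hu2 hv1 hv2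
    have x2 := span2 hd1 hd2 hb.t2.add (fun r h1 h2 => (van r h1 h2).2) hu1 hu2 hv1 hv2
    have y1 : e1 u * e1 u + e2 u * e2 u = 1 := by
      have := hb.f u u
      rw [hf, hu1, hu2] at this
      rw [← this]; ring
    have y2 : e1 v * e1 v + e2 v * e2 v = 1 := by
      have := hb.f v v
      rw [hf, hv1, hv2] at this
      rw [← this]; ring
    have y3 : e1 u * e1 v + e2 u * e2 v = 0 := by
      have := hb.f u v
      rw [hf, hv1, hv2, hu1, hu2] at this
      rw [← this]; ring
    have dec := sq4 _ _ _ _ y1 y2 y3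
    have fin : ∀ e : D → ZMod 3, (e = fun x => e u * d1 x + e v * d2 x) →
        ((e u = 1 ∧ e v = 0) ∨ (e u = -1 ∧ e v = 0) ∨ (e u = 0 ∧ e v = 1) ∨ (e u = 0 ∧ e v = -1)) →
        (e = d1 ∨ e = -d1 ∨ e = d2 ∨ e = -d2) := by
      intro e he hc
      rcases hc with ⟨h1, h2⟩ | ⟨h1, h2⟩ | ⟨h1, h2⟩ | ⟨h1, h2⟩
      · left; rw [he]; funext y; rw [h1, h2]; ring
      · right; left; rw [he]; funext y; rw [h1, h2, Pi.neg_apply]; ring
      · right; right; left; rw [he]; funext y; rw [h1, h2]; ring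
      · right; right; right; rw [he]; funext y; rw [h1, h2, Pi.neg_apply]; ring
    exact ⟨fin e1 x1 dec.1, fin e2 x2 dec.2⟩
  have in4 : ∀ e : D → ZMod 3, (e = d1 ∨ e = -d1 ∨ e = d2 ∨ e = -d2) → e ∈ W4 ∧ -e ∈ W4 := by
    intro e he
    rw [hW4]
    rcases he with rfl | rfl | rfl | rfl <;> simp
  have bad12 : ∀ q ∈ Qb, 12 ≤ ((fb S ev x q).offDiag.filter fun z => dif ev z ∈ W4).card := by
    intro q hq
    obtain ⟨T1, T2, e1, e2, hb⟩ := (Finset.mem_filter.mp hq).2
    obtain ⟨b1, b2⟩ := bad4 hb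
    exact bad_pairs hb.t1 hb.t2 hb.dis hb.s1 hb.s2 (in4 _ b1).1 (in4 _ b1).2 (in4 _ b2).1
      (in4 _ b2).2
  have hb9 : Qb.card ≤ 9 := by
    have h1 := cls27W prs x Qb W4
    have h2 := Finset.card_nsmul_le_sum _ _ _ bad12
    rw [smul_eq_mul] at h2
    have h3 : 27 * W4.card ≤ 27 * 4 := Nat.mul_le_mul_left _ hW4c
    omega
  -- all pairs
  have each : ∀ q ∈ Q, (if q ∈ Qb then 12 else 30) ≤
      ((fb S ev x q).offDiag.filter fun z => dif ev z ∈ W).card := by
    intro q hq
    have hq6 := (Finset.mem_filter.mp hq).2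
    by_cases hqb : q ∈ Qb
    · rw [if_pos hqb]
      obtain ⟨T1, T2, e1, e2, hb⟩ := (Finset.mem_filter.mp hqb).2
      have van : ∀ r, d1 r = 0 → d2 r = 0 → e1 r = 0 ∧ e2 r = 0 := by
        intro r h1 h2
        have h3 := hb.f r r
        rw [hr r h1 h2 r] at h3
        exact sq2 _ _ h3.symm
      have neg : ∀ f : D → ZMod 3, (∀ x y, f (x + y) = f x + f y) →
          ∀ x y, (-f) (x + y) = (-f) x + (-f) y := by
        intro f hf x y
        simp only [Pi.neg_apply, hf]; ring
      exact bad_pairs hb.t1 hb.t2 hb.dis hb.s1 hb.s2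
        (mem _ hb.t1.add fun r h1 h2 => (van r h1 h2).1)
        (mem _ (neg _ hb.t1.add) fun r h1 h2 => by
          simp only [Pi.neg_apply, (van r h1 h2).1, neg_zero])
        (mem _ hb.t2.add fun r h1 h2 => (van r h1 h2).2)
        (mem _ (neg _ hb.t2.add) fun r h1 h2 => by
          simp only [Pi.neg_apply, (van r h1 h2).2, neg_zero])
    · rw [if_neg hqb]
      rcases dichotomy hadd fs fq cell3 hq6 with h | h
      · apply good_pairs (F := fb S ev x q) hq6
        intro z hz
        rw [Finset.mem_offDiag] at hz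
        apply mem _ (dif_add hadd z)
        intro r h1 h2
        obtain ⟨e, he⟩ := h r (hr r h1 h2)
        simp only [dif]
        rw [he _ hz.1, he _ hz.2.1, sub_self]
      · exact absurd (Finset.mem_filter.mpr ⟨hq, h⟩) hqb
  have h1 := cls27W prs x Q W
  have h2 := Finset.sum_le_sum each
  have h3 : 27 * W.card ≤ 27 * 9 := Nat.mul_le_mul_left _ hWc
  have h4 : ∑ q ∈ Q, (if q ∈ Qb then 12 else 30) = 12 * Qb.card + 30 * (Q.card - Qb.card) := by
    rw [Finset.sum_ite]
    have e1 : Q.filter (fun q => q ∈ Qb) = Qb := by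
      ext q
      rw [Finset.mem_filter]
      exact ⟨fun h => h.2, fun h => ⟨(Finset.mem_filter.mp h).1, h⟩⟩
    have e2 : (Q.filter (fun q => q ∉ Qb)).card = Q.card - Qb.card := by
      have h5 := Finset.card_filter_add_card_filter_not (s := Q) (fun q => q ∈ Qb)
      rw [e1] at h5
      omega
    rw [e1, Finset.sum_const, Finset.sum_const, e2, smul_eq_mul, smul_eq_mul]
    ring
  have h5 : Qb.card ≤ Q.card := Finset.card_le_card (Finset.filter_subset _ _)
  omega

/-- (*): the functionals of the radical of a nonzero row are constant on every six-point fibre -/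
theorem star (hadd : ∀ x y p, ev (x + y) p = ev x p + ev y p)
    (fs : ∀ v x c y, ∑ p ∈ (S v).filter (fun p => ev x p = c), ev y p = 0)
    (fq : ∀ v x c y z, ∑ p ∈ (S v).filter (fun p => ev x p = c), ev y p * ev z p = - Φ x x y z)
    (cell3 : ∀ v x y c d, Φ x x y y = 0 → 3 ∣ cell S ev v x y c d)
    (prs : ∀ k : D → ZMod 3, ∑ v, ((S v ×ˢ S v).filter fun z =>
      z.1 ≠ z.2 ∧ ∀ y, ev y z.1 - ev y z.2 = k y).card ≤ 27)
    {x : D} (many : 18 ≤ ((univ : Finset (V × ZMod 3)).filter
      (fun q => fib S ev q.1 x q.2 = 6)).card) (nz : NZ Φ x) {v : V} {c : ZMod 3}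
    (h6 : fib S ev v x c = 6) {y : D} (hy : Rad Φ x y) :
    ∃ d, ∀ p ∈ S v, ev x p = c → ev y p = d := by
  have prs' : ∀ k : D → ZMod 3, ∑ v, ((S v).offDiag.filter fun z => dif ev z = k).card ≤ 27 := by
    intro k
    refine le_trans (le_of_eq (Finset.sum_congr rfl fun v _ => ?_)) (prs k)
    congr 1
    ext z
    rw [Finset.mem_filter, Finset.mem_filter, Finset.mem_offDiag, Finset.mem_product]
    constructor
    · rintro ⟨⟨h1, h2, h3⟩, h4⟩
      exact ⟨⟨h1, h2⟩, h3, fun y => congrFun h4 y⟩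
    · rintro ⟨⟨h1, h2⟩, h3, h4⟩
      exact ⟨⟨h1, h2, h3⟩, funext h4⟩
  rcases dichotomy (q := (v, c)) hadd fs fq cell3 h6 with h | ⟨T1, T2, d1, d2, hb⟩
  · obtain ⟨d, hd⟩ := h y hy
    exact ⟨d, fun p hp hpc => hd p (Finset.mem_filter.mpr ⟨hp, hpc⟩)⟩
  · exfalso
    have a1 := hb.t1.add
    have a2 := hb.t2.add
    have zz : ∀ x y : D, (fun _ : D => (0 : ZMod 3)) (x + y) =
      (fun _ : D => (0 : ZMod 3)) x + (fun _ : D => (0 : ZMod 3)) y := by intro x y; simp
    by_cases hI : ∃ u, d1 u ≠ 0 ∧ d2 u = 0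
    · by_cases hJ : ∃ v, d2 v ≠ 0 ∧ d1 v = 0
      · obtain ⟨u, hu1, hu2⟩ := hI
        obtain ⟨w, hw1, hw2⟩ := hJ
        obtain ⟨u', p1, p2⟩ := norm1 a1 a2 hu1 hu2
        obtain ⟨w', p3, p4⟩ := norm1 a2 a1 hw1 hw2
        exact caseW9 hadd fs fq cell3 prs' many a1 a2 hb.f p1 p2 p4 p3
      · push Not at hJ
        have hz : ∀ r, d1 r = 0 → d2 r = 0 := by
          intro r hr
          by_contra h
          exact hJ r h hr
        obtain ⟨u, hu1, hu2⟩ := hI
        obtain ⟨u', p1, _⟩ := norm1 a1 a2 hu1 hu2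
        refine caseW3 hadd fs fq cell3 prs' many a1 p1 ?_
        intro r hr z
        rw [hb.f, hr, hz r hr]; ring
    · push Not at hI
      have hz : ∀ r, d2 r = 0 → d1 r = 0 := by
        intro r hr
        by_contra h
        exact hI r h hr
      obtain ⟨y1, z1, hyz⟩ := nz
      have hne : ∃ r, d2 r ≠ 0 := by
        by_contra hc
        push Not at hc
        apply hyz
        rw [hb.f, hc, hz _ (hc y1)]; ring
      obtain ⟨r, hr⟩ := hne
      obtain ⟨u', p1, _⟩ := norm1 (e := fun _ : D => (0 : ZMod 3)) a2 zz hr rfl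
      refine caseW3 hadd fs fq cell3 prs' many a2 p1 ?_
      intro r hr z
      rw [hb.f, hr, hz r hr]; ring

/-- the trivial direction -/
theorem star_conv
    (fs : ∀ v x c y, ∑ p ∈ (S v).filter (fun p => ev x p = c), ev y p = 0)
    (fq : ∀ v x c y z, ∑ p ∈ (S v).filter (fun p => ev x p = c), ev y p * ev z p = - Φ x x y z)
    {x : D} {v : V} {c : ZMod 3} {y : D} {d : ZMod 3} (hd : ∀ p ∈ S v, ev x p = c → ev y p = d) :
    Rad Φ x y := by
  intro z
  have h1 := fq v x c y z
  have h2 : ∑ p ∈ (S v).filter (fun p => ev x p = c), ev y p * ev z p =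
      d * ∑ p ∈ (S v).filter (fun p => ev x p = c), ev z p := by
    rw [Finset.mul_sum]
    refine Finset.sum_congr rfl fun p hp => ?_
    rw [Finset.mem_filter] at hp
    rw [hd p hp.1 hp.2]
  rw [h2, fs, mul_zero] at h1
  linear_combination h1

/-- the field `six` of `H40.S36.Hyp` -/
theorem six_iff (hadd : ∀ x y p, ev (x + y) p = ev x p + ev y p)
    (fs : ∀ v x c y, ∑ p ∈ (S v).filter (fun p => ev x p = c), ev y p = 0)
    (fq : ∀ v x c y z, ∑ p ∈ (S v).filter (fun p => ev x p = c), ev y p * ev z p = - Φ x x y z)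
    (cell3 : ∀ v x y c d, Φ x x y y = 0 → 3 ∣ cell S ev v x y c d)
    (prs : ∀ k : D → ZMod 3, ∑ v, ((S v ×ˢ S v).filter fun z =>
      z.1 ≠ z.2 ∧ ∀ y, ev y z.1 - ev y z.2 = k y).card ≤ 27)
    (many : ∀ x, NZ Φ x → 18 ≤ ((univ : Finset (V × ZMod 3)).filter
      (fun q => fib S ev q.1 x q.2 = 6)).card) :
    ∀ v x c, NZ Φ x → fib S ev v x c = 6 →
      ∀ y, (∃ d, ∀ p ∈ S v, ev x p = c → ev y p = d) ↔ Rad Φ x y :=
  fun _ x _ nz h6 _ => ⟨fun ⟨_, hd⟩ => star_conv fs fq hd,
    fun hy => star hadd fs fq cell3 prs (many x nz) nz h6 hy⟩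

end main

end Pool.Agent.H59.T6
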